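import Pool.Agent.Helper25.EC.Assembly
import Pool.Agent.Helper37.ETC.Step

/-!
# MP_600e55_nt: the Elementary Type Conjecture for maximal pro-p Galois groups

Let `F` be a field with a primitive `p`-th root of unity and `K` a maximal `p`-extension of `F`
whose group `Gal(K/F)` is finitely generated as a pro-`p` group. Then `Gal(K/F)` is the free
pro-`p` product of finitely many closed subgroups, each of which is isomorphic to `ℤ_p`, or the
decomposition group of a valuation of `K` with nontrivial inertia, or of order two (`p = 2`).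
-/

set_option autoImplicit false

namespace Pool.Agent.Results.MP_600e55_nt.ElementaryType

open Pool.Agent.Helper25.EC Pool.Agent.Helper25.ETC
open scoped Pointwise

/-- `K` is a maximal `p`-extension of the field `F` (which has a primitive `p`-th root of unity):
`K / F` is Galois, every automorphism has `p`-power order on every element, and `K` has no
proper extension by `p`-th roots. -/
structure IsMaximalPExtension (p : ℕ) (F K : Type) [Field F] [Field K] [Algebra F K] : Prop where
  galois : IsGalois F K
  pGroup : ∀ (σ : K ≃ₐ[F] K) (x : K), ∃ k : ℕ, (σ ^ (p ^ k)) x = x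
  closed : ∀ x : K, ∃ y : K, y ^ p = x

/-- The topological group `G` is the free pro-`p` product of its subgroups `H i`: for every
finite `p`-group `P` the continuous homomorphisms `G → P` are the families of continuous
homomorphisms `H i → P`, by restriction. -/
def IsFreeProduct (p : ℕ) {G ι : Type} [Group G] [TopologicalSpace G] (H : ι → Subgroup G) :
    Prop :=
  ∀ (P : Type) [Group P] [Finite P], (∃ k : ℕ, Nat.card P = p ^ k) →
    ∀ φ : (i : ι) → (H i →* P), (∀ i, IsOpen ((φ i).ker : Set (H i))) →
      ∃! ψ : G →* P, IsOpen (ψ.ker : Set G) ∧ ∀ i, ∀ x : H i, ψ (x : G) = φ i x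

/-- The decomposition group of the valuation ring `A` of `K` in `Gal(K/F)`. -/
def decomposition (F : Type) {K : Type} [Field F] [Field K] [Algebra F K]
    (A : ValuationSubring K) : Set (K ≃ₐ[F] K) :=
  {σ | ∀ x : K, σ x ∈ A ↔ x ∈ A}

/-- The inertia group of the valuation ring `A` of `K` in `Gal(K/F)`: the elements of the
decomposition group acting trivially on the residue field. -/
def inertia (F : Type) {K : Type} [Field F] [Field K] [Algebra F K]
    (A : ValuationSubring K) : Set (K ≃ₐ[F] K) :=
  {σ | σ ∈ decomposition F A ∧ ∀ x ∈ A, A.valuation (σ x - x) < 1}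

theorem result (p : ℕ) [Fact p.Prime] (F K : Type) [Field F] [Field K] [Algebra F K]
    (ζ : F) (hζ : IsPrimitiveRoot ζ p) (hK : IsMaximalPExtension p F K)
    (S : Finset (K ≃ₐ[F] K))
    (hS : Dense ((Subgroup.closure (S : Set (K ≃ₐ[F] K)) : Set (K ≃ₐ[F] K)))) :
    ∃ (n : ℕ) (H : Fin n → Subgroup (K ≃ₐ[F] K)),
      (∀ i, IsClosed (H i : Set (K ≃ₐ[F] K))) ∧ IsFreeProduct p H ∧
      ∀ i, Nonempty (H i ≃ₜ* Multiplicative (PadicInt p)) ∨
        (∃ A : ValuationSubring K, (H i : Set (K ≃ₐ[F] K)) = decomposition F A ∧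
          ∃ σ ∈ inertia F A, σ ≠ 1) ∨
        (p = 2 ∧ Nat.card (H i) = 2) := by
  have hp : p.Prime := Fact.out
  have PC : PCl p F K := ⟨hK.galois, hK.pGroup, hK.closed⟩
  have hgal := PC.gal
  have Fr := frame_of_pcl hp PC hζ S hS
  obtain ⟨ι, hι, H, hHc, hHF, hH⟩ := concl_of_step
    (fun K G _ _ _ _ _ _ _ h => Pool.Helper37.ETC.step_of_frame (p := p) (K := K) (G := G) h)
    _ K (K ≃ₐ[F] K) Fr le_rfl
  obtain ⟨n, ⟨e⟩⟩ := Finite.exists_equiv_fin ι
  refine ⟨n, fun i => H (e.symm i), fun i => hHc _, ?_, ?_⟩
  · exact fun P _ _ hP φ hφ => hHF.reindex e.symm P hP φ hφ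
  · intro i
    rcases hH (e.symm i) with ⟨_, h⟩ | ⟨A, hA, g, hg, hi⟩ | h
    · exact Or.inl h
    · right; left
      refine ⟨A, ?_, g, ⟨?_, fun x hx => hi.2 x hx⟩, hg⟩
      · ext σ
        change σ ∈ H (e.symm i) ↔ _
        rw [hA, MulAction.mem_stabilizer_iff, mem_stab_iff]
        rfl
      · have h1 := hi.1
        rw [mem_stab_iff] at h1
        exact h1
    · exact Or.inr (Or.inr h)

end Pool.Agent.Results.MP_600e55_nt.ElementaryType
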