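import Pool.Agent.Helper25.ETCConcl
import Pool.Agent.Helper25.GG.Final2

/-!
# MP_600e55_nt: the rank gradient of a maximal pro-`p` Galois group is an integer

Let `F` contain a primitive `p`-th root of unity, `K = F(p)`, `F₁` a finite subextension of `K`
(containing a square root of `-1` if `p = 2`; otherwise one may take `F₁ = F`), `F₁* / F₁*^p`
finite and nontrivial.  Write `d(E) = dim E* / E*^p` for finite subextensions `E` of `K / F₁` (by
Kummer theory this is the minimal number of generators of `Gal(K/E)`).  Then the infimum of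
`(d(E) - 1) / [E : F₁]` is an integer `r`; and if `r = 0` and `d(F₁) ≥ 2`, then the whole Galois
group `Gal(K/F)` is the decomposition group of a valuation with nontrivial inertia.
-/

set_option autoImplicit false

namespace Pool.Agent.Results.MP_600e55_nt.IntegerRankGradient

open Pool.Agent.Helper25.ETC

theorem card_restrict {p : ℕ} {F K : Type} [Field F] [Field K] [Algebra F K]
    {F₁ : IntermediateField F K} (E : IntermediateField F₁ K) :
    Nat.card (PC p (E.restrictScalars F)) = Nat.card (Eˣ ⧸ (powMonoidHom p : Eˣ →* Eˣ).range) :=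
  rfl

/-- an intermediate field above `F₁` as an extension of `F₁`. -/
theorem exists_over {F K : Type} [Field F] [Field K] [Algebra F K]
    {F₁ E : IntermediateField F K} (hle : F₁ ≤ E) :
    ∃ E' : IntermediateField F₁ K, E'.restrictScalars F = E :=
  ⟨IntermediateField.extendScalars hle, IntermediateField.extendScalars_restrictScalars hle⟩

theorem result :
  ∀ (p : ℕ) [Fact p.Prime] (F : Type) [Field F],
    -- `F` contains a primitive `p`-th root of unity
    (∃ ζ : F, IsPrimitiveRoot ζ p) →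
    ∀ K : IntermediateField F (AlgebraicClosure F),
      K = sSup {L : IntermediateField F (AlgebraicClosure F) |
        FiniteDimensional F L ∧ IsGalois F L ∧ ∃ k : ℕ, Module.finrank F L = p ^ k} →
      -- `F₁` is a finite subextension containing a square root of `-1` if `p = 2`
      ∀ F₁ : IntermediateField F ↥K, FiniteDimensional F F₁ → (p = 2 → ∃ i : F₁, i ^ 2 = -1) →
      -- `d(F₁) = n ≥ 1`
      ∀ n : ℕ, Nat.card (F₁ˣ ⧸ (powMonoidHom p : F₁ˣ →* F₁ˣ).range) = p ^ n → 1 ≤ n →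
      ∃ r : ℕ,
        -- `d(E)` is finite and `d(E) - 1 ≥ r [E : F₁]` for all finite `E` between `F₁` and `K`
        (∀ E : IntermediateField F₁ ↥K, FiniteDimensional F₁ E →
          ∃ m : ℕ, Nat.card (Eˣ ⧸ (powMonoidHom p : Eˣ →* Eˣ).range) = p ^ m ∧
            r * Module.finrank F₁ E + 1 ≤ m) ∧
        -- `(d(E) - 1) / [E : F₁]` comes arbitrarily close to `r`
        (∀ ε : ℝ, 0 < ε → ∃ E : IntermediateField F₁ ↥K, FiniteDimensional F₁ E ∧
          ∃ m : ℕ, Nat.card (Eˣ ⧸ (powMonoidHom p : Eˣ →* Eˣ).range) = p ^ m ∧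
            (m : ℝ) - 1 ≤ (r + ε) * Module.finrank F₁ E) ∧
        -- if `r = 0` and `n ≥ 2`: the conclusion of the conjecture for `F`, with one factor, of
        -- type (ii)
        (r = 0 → 2 ≤ n →
          ∃ (n : ℕ) (H : Fin n → Subgroup (↥K ≃ₐ[F] ↥K)), n = 1 ∧ (∀ i, H i = ⊤) ∧
            (∀ i, IsClosed (H i : Set (↥K ≃ₐ[F] ↥K))) ∧
            (∀ (P : Type) [Group P] [Finite P], (∃ k : ℕ, Nat.card P = p ^ k) →
              ∀ φ : (i : Fin n) → (H i →* P), (∀ i, IsOpen ((φ i).ker : Set (H i))) →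
                ∃! ψ : (↥K ≃ₐ[F] ↥K) →* P,
                  IsOpen (ψ.ker : Set (↥K ≃ₐ[F] ↥K)) ∧
                  ∀ i, ∀ x : H i, ψ (x : ↥K ≃ₐ[F] ↥K) = φ i x) ∧
            (∀ i, ∃ (Γ : Type) (_ : LinearOrderedCommGroupWithZero Γ) (w : Valuation (↥K) Γ),
                (∀ σ : ↥K ≃ₐ[F] ↥K, σ ∈ H i ↔ ∀ x : ↥K, (w (σ x) ≤ 1 ↔ w x ≤ 1)) ∧
                ∃ σ ∈ H i, σ ≠ 1 ∧ ∀ x : ↥K, w x ≤ 1 → w (σ x - x) < 1)) := by
  intro p _ F _ hroot K hK F₁ hF₁ hp2 n hn h1
  have hp : p.Prime := Fact.out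
  obtain ⟨ζ, hζ⟩ := hroot
  have Cx : Ctx p F K (algebraMap F K ζ) :=
    { hp := hp
      hζ := hζ.map_of_injective (algebraMap F K).injective
      pc := pcl_of_eq hp hζ hK }
  have hi : p = 2 → ∃ z ∈ F₁, z ^ 2 = -1 := by
    intro h2
    obtain ⟨i, hi⟩ := hp2 h2
    refine ⟨(i : K), i.2, ?_⟩
    have := congrArg (Subtype.val : F₁ → K) hi
    exact this
  have hfin : ∀ E : IntermediateField F₁ ↥K, FiniteDimensional F₁ E →
      FiniteDimensional F (E.restrictScalars F) ∧
        Module.finrank F (E.restrictScalars F) = Module.finrank F F₁ * Module.finrank F₁ E := by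
    intro E hE
    have h3 : FiniteDimensional F E := FiniteDimensional.trans F F₁ E
    exact ⟨h3, (Module.finrank_mul_finrank F F₁ E).symm⟩
  have hF0 : 0 < Module.finrank F F₁ := Module.finrank_pos
  obtain ⟨r, hr1, hr2, hr3⟩ := Pool.Agent.Helper25.GG.rank_gradient_rel Cx (F1 := F₁)
    (F₁.algebraMap_mem ζ) hi hn h1
  refine ⟨r, ?_, ?_, fun h0 h2 => etc_of_concl (hr3 h0 h2)⟩
  · intro E hE
    obtain ⟨h3, h4⟩ := hfin E hE
    have hle : F₁ ≤ E.restrictScalars F := fun x hx => E.algebraMap_mem ⟨x, hx⟩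
    exact hr1 (E.restrictScalars F) _ hle h3 h4
  · intro ε hε
    obtain ⟨E, μ, hle, hE, hμ, m, hm, hm2⟩ := hr2 ε hε
    obtain ⟨E', rfl⟩ := exists_over hle
    have hE' : FiniteDimensional F E' := hE
    have hfE : FiniteDimensional F₁ E' := FiniteDimensional.right F F₁ E'
    have h5 := (hfin E' hfE).2
    rw [h5] at hμ
    have h6 := Nat.eq_of_mul_eq_mul_left hF0 hμ
    refine ⟨E', hfE, m, hm, ?_⟩
    rw [h6]
    exact hm2

end Pool.Agent.Results.MP_600e55_nt.IntegerRankGradient
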