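import Pool.Agent.Helper25.ETCConcl
import Pool.Agent.Helper25.ETCRel

/-!
# MP_600e55_nt: fields with many relations

If some open subgroup of the maximal pro-`p` Galois group of `F` has more than
`(n - 1)(n - 2)/2` independent relations, `n` its number of generators, then the whole group is
the decomposition group of a valuation with nontrivial inertia.
-/

set_option autoImplicit false

namespace Pool.Agent.Results.MP_600e55_nt.ManyRelations

open Pool.Agent.Helper25.ETC

theorem result :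
  ∀ (p : ℕ) [Fact p.Prime] (F : Type) [Field F],
    (∃ ζ : F, IsPrimitiveRoot ζ p) →
    ∀ K : IntermediateField F (AlgebraicClosure F),
      K = sSup {L : IntermediateField F (AlgebraicClosure F) |
        FiniteDimensional F L ∧ IsGalois F L ∧ ∃ k : ℕ, Module.finrank F L = p ^ k} →
      -- `E` is a finite subextension of `K` with `p ^ n` classes of `p`-th powers
      ∀ (E : IntermediateField F ↥K) (n : ℕ), FiniteDimensional F E →
        (∃ ε : E, ε ^ p = -1) → 2 ≤ n →
        Nat.card (Eˣ ⧸ (powMonoidHom p : Eˣ →* Eˣ).range) = p ^ n →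
        -- more than `p ^ ((n-1)(n-2)/2)` pairings vanish on all pairs `(a, b)` for which `b` is a
        -- norm from `E(α)`, `α ^ p = a`
        p ^ ((n - 1).choose 2) < Nat.card {B : Eˣ → Eˣ → ZMod p //
          (∀ x y z, B (x * y) z = B x z + B y z) ∧ (∀ x y z, B x (y * z) = B x y + B x z) ∧
          ∀ a b : Eˣ, (∃ α : ↥K, α ^ p = ((a : E) : ↥K) ∧
            ∃ y : IntermediateField.adjoin E {α}, Algebra.norm E y = (b : E)) → B a b = 0} →
      ∃ (n : ℕ) (H : Fin n → Subgroup (↥K ≃ₐ[F] ↥K)), n = 1 ∧ (∀ i, H i = ⊤) ∧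
        (∀ i, IsClosed (H i : Set (↥K ≃ₐ[F] ↥K))) ∧
        (∀ (P : Type) [Group P] [Finite P], (∃ k : ℕ, Nat.card P = p ^ k) →
          ∀ φ : (i : Fin n) → (H i →* P), (∀ i, IsOpen ((φ i).ker : Set (H i))) →
            ∃! ψ : (↥K ≃ₐ[F] ↥K) →* P,
              IsOpen (ψ.ker : Set (↥K ≃ₐ[F] ↥K)) ∧
              ∀ i, ∀ x : H i, ψ (x : ↥K ≃ₐ[F] ↥K) = φ i x) ∧
        (∀ i, ∃ (Γ : Type) (_ : LinearOrderedCommGroupWithZero Γ) (w : Valuation (↥K) Γ),
            (∀ σ : ↥K ≃ₐ[F] ↥K, σ ∈ H i ↔ ∀ x : ↥K, (w (σ x) ≤ 1 ↔ w x ≤ 1)) ∧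
            ∃ σ ∈ H i, σ ≠ 1 ∧ ∀ x : ↥K, w x ≤ 1 → w (σ x - x) < 1) := by
  intro p _ F _ hζ K hK E n hE hε hn2 hn hcount
  obtain ⟨ζ, hζ⟩ := hζ
  obtain ⟨ε, hε⟩ := hε
  have hp : p.Prime := Fact.out
  have Cx : Ctx p F K (algebraMap F K ζ) :=
    { hp := hp
      hζ := hζ.map_of_injective (algebraMap F K).injective
      pc := pcl_of_eq hp hζ hK }
  have hneg : (-1 : K) ∈ TT p E :=
    ⟨neg_ne_zero.mpr one_ne_zero, ε, ε.2, by
      have := congrArg (algebraMap E K) hε
      rw [map_pow, map_neg, map_one] at this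
      exact this⟩
  exact etc_of_concl (concl_of_count Cx (E.algebraMap_mem ζ) hneg hn hn2 hcount)

end Pool.Agent.Results.MP_600e55_nt.ManyRelations
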