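import Pool.Agent.Helper25.ETCTrans

/-!
# MP_600e55_nt: finitely generated normal subgroups of maximal pro-`p` Galois groups

If some open subgroup of the maximal pro-`p` Galois group of `F` has an infinite, topologically
finitely generated closed normal subgroup of infinite index, then the whole group is the
decomposition group of a valuation with nontrivial inertia; so the conclusion of the conjecture
holds for `F`, with one factor, of type (ii).
-/

set_option autoImplicit false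

namespace Pool.Agent.Results.MP_600e55_nt.NormalSubgroups

open Pool.Agent.Helper25.ETC

theorem result :
  ∀ (p : ℕ) [Fact p.Prime] (F : Type) [Field F],
    (∃ ζ : F, IsPrimitiveRoot ζ p) →
    ∀ K : IntermediateField F (AlgebraicClosure F),
      K = sSup {L : IntermediateField F (AlgebraicClosure F) |
        FiniteDimensional F L ∧ IsGalois F L ∧ ∃ k : ℕ, Module.finrank F L = p ^ k} →
      -- `N` is an infinite closed normal subgroup of infinite index of an open subgroup `U`,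
      -- topologically generated by a finite set
      (∃ (U N : Subgroup (↥K ≃ₐ[F] ↥K)) (S : Finset (↥K ≃ₐ[F] ↥K)),
        IsOpen (U : Set (↥K ≃ₐ[F] ↥K)) ∧ IsClosed (N : Set (↥K ≃ₐ[F] ↥K)) ∧ N ≤ U ∧
        (N.subgroupOf U).Normal ∧ Infinite N ∧ Infinite (U ⧸ N.subgroupOf U) ∧
        (N : Set (↥K ≃ₐ[F] ↥K)) =
          closure (Subgroup.closure (S : Set (↥K ≃ₐ[F] ↥K)) : Set (↥K ≃ₐ[F] ↥K))) →
      ∃ (n : ℕ) (H : Fin n → Subgroup (↥K ≃ₐ[F] ↥K)), n = 1 ∧ (∀ i, H i = ⊤) ∧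
        (∀ i, IsClosed (H i : Set (↥K ≃ₐ[F] ↥K))) ∧
        (∀ (P : Type) [Group P] [Finite P], (∃ k : ℕ, Nat.card P = p ^ k) →
          ∀ φ : (i : Fin n) → (H i →* P), (∀ i, IsOpen ((φ i).ker : Set (H i))) →
            ∃! ψ : (↥K ≃ₐ[F] ↥K) →* P,
              IsOpen (ψ.ker : Set (↥K ≃ₐ[F] ↥K)) ∧
              ∀ i, ∀ x : H i, ψ (x : ↥K ≃ₐ[F] ↥K) = φ i x) ∧
        (∀ i, ∃ (Γ : Type) (_ : LinearOrderedCommGroupWithZero Γ) (w : Valuation (↥K) Γ),
            (∀ σ : ↥K ≃ₐ[F] ↥K, σ ∈ H i ↔ ∀ x : ↥K, (w (σ x) ≤ 1 ↔ w x ≤ 1)) ∧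
            ∃ σ ∈ H i, σ ≠ 1 ∧ ∀ x : ↥K, w x ≤ 1 → w (σ x - x) < 1) := by
  intro p _ F _ hζ K hK hUN
  obtain ⟨ζ, hζ⟩ := hζ
  obtain ⟨U, N, S, hU, hN, hNU, hn, hinf, hidx, hS⟩ := hUN
  have hp : p.Prime := Fact.out
  have Cx : Ctx p F K (algebraMap F K ζ) :=
    { hp := hp
      hζ := hζ.map_of_injective (algebraMap F K).injective
      pc := pcl_of_eq hp hζ hK }
  have hidx' : N.relIndex U = 0 := by
    unfold Subgroup.relIndex Subgroup.index
    exact Nat.card_eq_zero_of_infinite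
  have hSN : (S : Set (↥K ≃ₐ[F] ↥K)) ⊆ N := by
    rw [hS]
    exact Subgroup.subset_closure.trans subset_closure
  obtain ⟨O, hO, σ, hσ1, hσ⟩ := concl_of_normal Cx hU hN hNU hn hinf hidx' S hS.le hSN
  refine ⟨1, fun _ => ⊤, rfl, fun _ => rfl, fun _ => isClosed_univ, ?_, fun _ => ?_⟩
  · intro P _ _ _ φ hφ
    refine ⟨(φ 0).comp (Subgroup.topEquiv.symm.toMonoidHom), ⟨?_, ?_⟩, ?_⟩
    · have h1 : IsOpen (Subtype.val '' ((φ 0).ker : Set (⊤ : Subgroup (↥K ≃ₐ[F] ↥K)))) :=
        (isOpen_univ.isOpenEmbedding_subtypeVal).isOpenMap _ (hφ 0)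
      convert h1
      ext x
      constructor
      · intro hx
        exact ⟨⟨x, Subgroup.mem_top x⟩, hx, rfl⟩
      · rintro ⟨y, hy, rfl⟩
        exact hy
    · intro i x
      rw [Subsingleton.elim i 0]
      rfl
    · rintro ψ ⟨-, hψ⟩
      ext x
      exact hψ 0 ⟨x, Subgroup.mem_top x⟩
  · refine ⟨O.ValueGroup, inferInstance, O.valuation, fun τ => ?_, σ, Subgroup.mem_top σ, hσ1,
      fun x hx => ?_⟩
    · simp only [Subgroup.mem_top, true_iff]
      intro x
      rw [O.valuation_le_one_iff, O.valuation_le_one_iff]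
      exact (hO τ x).symm
    · exact hσ x ((O.valuation_le_one_iff x).mp hx)

end Pool.Agent.Results.MP_600e55_nt.NormalSubgroups
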